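import Pool.Agent.Helper36.SB.Gal
import Pool.Agent.Helper52.Vojta.NormLocal

/-!
# QP, block LOC: the conjugation of an extension of degree at most two and the places
-/

set_option autoImplicit false

namespace Pool.Agent.QP

open NumberField Finset Module
open Pool.Agent.Helper64.Vojta (Pl nv sn above mem_above nv_nonneg nv_mul nv_one nv_zero nv_pos nv_inv)
open Pool.Agent.Helper52.Vojta (ldeg nv_above sum_ldeg)

/-- a place is determined by its absolute value -/
theorem nv_inj {L : Type*} [Field L] [NumberField L] {w w' : Pl L} (h : ∀ x, nv w x = nv w' x) : w = w' := by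
  have h2 := h ((2 : ℕ) : L)
  have hfin : ∀ u : FinitePlace L, u (((2 : ℕ) : L)) ≤ 1 := fun u => by
    have h1 := Pool.Agent.Helper64.Vojta.nv_int_le_one u ((2 : ℕ) : 𝓞 L)
    have h2 : (((2 : ℕ) : 𝓞 L) : L) = ((2 : ℕ) : L) := map_natCast (algebraMap (𝓞 L) L) 2
    rw [h2] at h1
    exact h1
  have hinf : ∀ u : InfinitePlace L, (2 : ℝ) ≤ u (((2 : ℕ) : L)) ^ u.mult := fun u => by
    rw [InfinitePlace.map_natCast]
    calc (2 : ℝ) = ((2 : ℕ) : ℝ) ^ 1 := by norm_num
      _ ≤ ((2 : ℕ) : ℝ) ^ u.mult := pow_le_pow_right₀ (by norm_num) u.mult_pos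
  rcases w with w | w <;> rcases w' with w' | w'
  · have e1 : (2 : ℝ) ^ w.mult = 2 ^ w'.mult := by
      have h3 : w (((2 : ℕ) : L)) ^ w.mult = w' (((2 : ℕ) : L)) ^ w'.mult := h2
      rw [InfinitePlace.map_natCast, InfinitePlace.map_natCast] at h3
      exact_mod_cast h3
    have e2 : w.mult = w'.mult := Nat.pow_right_injective (le_refl 2) (by exact_mod_cast e1)
    congr 1
    ext x
    have h3 : w x ^ w.mult = w' x ^ w'.mult := h x
    rw [← e2] at h3
    exact (pow_left_inj₀ (apply_nonneg w x) (apply_nonneg w' x) w.mult_ne_zero).1 h3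
  · exfalso
    have h3 : w (((2 : ℕ) : L)) ^ w.mult = w' (((2 : ℕ) : L)) := h2
    have h4 := hfin w'
    have h5 := hinf w
    linarith
  · exfalso
    have h3 : w (((2 : ℕ) : L)) = w' (((2 : ℕ) : L)) ^ w'.mult := h2
    have h4 := hfin w
    have h5 := hinf w'
    linarith
  · congr 1
    exact DFunLike.coe_injective (funext h)

variable {k L : Type*} [Field k] [NumberField k] [Field L] [NumberField L] [Algebra k L]

theorem ldeg_ne_zero {v : Pl k} {w : Pl L} (h : w ∈ above L v) : ldeg v w ≠ 0 := by
  intro h0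
  have h5 := nv_above h (0 : k)
  rw [h0, pow_zero, map_zero, nv_zero] at h5
  exact zero_ne_one h5

/-- the places above `v` and the conjugation `σ` -/
def PlCj (σ : L →ₐ[k] L) (v : Pl k) (w : Pl L) : Prop :=
  (above L v = {w} ∧ ldeg v w = finrank k L ∧ ∀ z, nv w (σ z) = nv w z) ∨
    ∃ w', w' ≠ w ∧ (∀ u, u ∈ above L v ↔ u = w ∨ u = w') ∧ ldeg v w = 1 ∧ finrank k L = 2 ∧
      ∀ z, nv w' z = nv w (σ z)

theorem exists_sig (h : finrank k L ≤ 2) : ∃ σ : L →ₐ[k] L, (∀ z, σ (σ z) = z) ∧
    (∀ z, σ z = z → z ∈ (algebraMap k L).range) ∧ (∀ z, z * σ z = algebraMap k L (Algebra.norm k z) ∨ finrank k L = 1) ∧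
    ∀ (v : Pl k) (w : Pl L), w ∈ above L v → PlCj σ v w := by
  classical
  have hfd : FiniteDimensional k L := FiniteDimensional.right ℚ k L
  have hpos : 0 < finrank k L := finrank_pos
  have hcases : finrank k L = 1 ∨ finrank k L = 2 := by omega
  rcases hcases with h1 | h2
  · refine ⟨AlgHom.id k L, fun z => rfl, fun z _ => ?_, fun z => Or.inr h1, fun v w hw => Or.inl ⟨?_, ?_, fun z => rfl⟩⟩
    · have h3 : (⊥ : Subalgebra k L) = ⊤ := Subalgebra.bot_eq_top_of_finrank_eq_one h1
      have h4 : z ∈ (⊥ : Subalgebra k L) := h3 ▸ Algebra.mem_top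
      exact Algebra.mem_bot.1 h4
    · ext w'
      rw [mem_singleton]
      refine ⟨fun hw' => ?_, fun h => h ▸ hw⟩
      by_contra hne
      have h3 := sum_ldeg (L' := L) v
      have h4 : ldeg v w' + ldeg v w ≤ ∑ w ∈ above L v, ldeg v w := by
        rw [← sum_pair hne]
        exact sum_le_sum_of_subset (by
          intro x hx
          rw [mem_insert, mem_singleton] at hx
          rcases hx with rfl | rfl
          · exact hw'
          · exact hw)
      have h5 := ldeg_ne_zero hw
      have h6 := ldeg_ne_zero hw'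
      omega
    · have h3 := sum_ldeg (L' := L) v
      have h4 : ldeg v w ≤ ∑ w ∈ above L v, ldeg v w := single_le_sum (fun _ _ => Nat.zero_le _) hw
      have h5 := ldeg_ne_zero hw
      omega
  · have : Algebra.IsQuadraticExtension k L := ⟨h2⟩
    have : Algebra.IsSeparable k L := inferInstance
    have : IsGalois k L := inferInstance
    have hcard : Fintype.card (L ≃ₐ[k] L) = 2 := by
      rw [← Nat.card_eq_fintype_card, IsGalois.card_aut_eq_finrank, h2]
    obtain ⟨σ, hσ⟩ : ∃ σ : L ≃ₐ[k] L, σ ≠ 1 := by
      have : Nontrivial (L ≃ₐ[k] L) := Fintype.one_lt_card_iff_nontrivial.1 (by omega)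
      exact exists_ne 1
    have hall : ∀ τ : L ≃ₐ[k] L, τ = 1 ∨ τ = σ := by
      intro τ
      by_contra hcon
      push Not at hcon
      have h3 : ({1, σ, τ} : Finset (L ≃ₐ[k] L)).card ≤ 2 := hcard ▸ card_le_univ _
      rw [card_eq_three.2 ⟨1, σ, τ, hσ.symm, hcon.1.symm, hcon.2.symm, rfl⟩] at h3
      omega
    have hinv : ∀ z, σ (σ z) = z := by
      intro z
      have h3 := hall (σ * σ)
      rcases h3 with h3 | h3
      · exact congrArg (fun τ : L ≃ₐ[k] L => τ z) h3
      · exact absurd (mul_eq_left.1 h3) hσ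
    have hnorm : ∀ z, algebraMap k L (Algebra.norm k z) = z * σ z := by
      intro z
      rw [Algebra.norm_eq_prod_automorphisms]
      have h3 : (univ : Finset (L ≃ₐ[k] L)) = {1, σ} := by
        refine (eq_univ_of_card _ ?_).symm
        rw [card_pair hσ.symm, hcard]
      rw [h3, prod_pair hσ.symm]
      rfl
    refine ⟨σ, hinv, fun z hz => ?_, fun z => Or.inl (hnorm z).symm, fun v w hw => ?_⟩
    · refine (IsGalois.mem_range_algebraMap_iff_fixed z).2 fun τ => ?_
      rcases hall τ with h3 | h3
      · rw [h3]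
        rfl
      · rw [h3]
        exact hz
    · by_cases hex : ∃ w' ∈ above L v, w' ≠ w
      · obtain ⟨w', hw', hne⟩ := hex
        have hconj : ∀ w'' ∈ above L v, w'' ≠ w → ∀ z, nv w'' z = nv w (σ z) := by
          intro w'' hw'' hne'' z
          obtain ⟨τ, hτ⟩ := Pool.Agent.Helper36.SB.exists_gal hw hw''
          rcases hall τ with h3 | h3
          · rw [h3] at hτ
            exact absurd (nv_inj fun x => hτ x) hne''
          · rw [h3] at hτ
            rw [← hτ (σ z), hinv]
        have hset : ∀ w'', w'' ∈ above L v ↔ w'' = w ∨ w'' = w' := by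
          intro w''
          refine ⟨fun h'' => ?_, ?_⟩
          · by_cases h3 : w'' = w
            · exact Or.inl h3
            · exact Or.inr (nv_inj fun x => (hconj w'' h'' h3 x).trans (hconj w' hw' hne x).symm)
          · rintro (rfl | rfl)
            · exact hw
            · exact hw'
        refine Or.inr ⟨w', hne, hset, ?_, h2, hconj w' hw' hne⟩
        have h3 := sum_ldeg (L' := L) v
        have hset' : above L v = {w, w'} := by
          ext u
          rw [hset u, mem_insert, mem_singleton]
        rw [hset', sum_pair hne.symm] at h3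
        have h5 := ldeg_ne_zero hw
        have h6 := ldeg_ne_zero hw'
        omega
      · push Not at hex
        have hset : above L v = {w} := by
          ext w''
          rw [mem_singleton]
          exact ⟨fun h'' => hex w'' h'', fun h => h ▸ hw⟩
        have hdeg : ldeg v w = finrank k L := by
          have h3 := sum_ldeg (L' := L) v
          rw [hset, sum_singleton] at h3
          exact h3
        refine Or.inl ⟨hset, hdeg, fun z => ?_⟩
        by_cases hz : z = 0
        · rw [hz, map_zero]
        · have h3 := Pool.Agent.Helper52.Vojta.nv_norm v z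
          rw [hset, prod_singleton] at h3
          have h4 := nv_above hw (Algebra.norm k z)
          rw [h3, hdeg, h2, hnorm, nv_mul, sq] at h4
          exact mul_left_cancel₀ (nv_pos w hz).ne' h4

end Pool.Agent.QP
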