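import Pool.Agent.Helper64.QP.Lim
import Pool.Agent.Helper16.FIN.Chart

/-!
# QP, block LOC: from points of degree at most two to a germ of symmetric tensors
-/

set_option autoImplicit false
set_option linter.unusedSectionVars false

namespace Pool.Agent.QP

open NumberField Finset Module Filter Topology
open Pool.Agent.Helper64.Vojta (Pl nv sn above mem_above nv_nonneg nv_mul nv_one nv_zero nv_pos nv_inv le_sn sn_le sn_pos
  nv_sum_le fin_support_sn log_support card_inf_le')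
open Pool.Agent.Helper52.Vojta (ldeg nv_above sum_ldeg sn_above logHeight_eq_sum exists_below logHeight_algebraMap)
open Pool.Agent.V2 (vn vH gsum)
open Pool.Agent

universe u

section conj

variable {k L : Type u} [Field k] [NumberField k] [Field L] [NumberField L] [Algebra k L]

theorem exists_tau {σ : L →ₐ[k] L} (hPl : ∀ (v : Pl k) (w : Pl L), w ∈ above L v → PlCj σ v w)
    (w : Pl L) : ∃ u : Pl L, ∀ z, nv w (σ z) = nv u z := by
  obtain ⟨v, hv⟩ := exists_below (L := k) w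
  rcases hPl v w hv with ⟨_, _, h⟩ | ⟨w', _, _, _, _, h⟩
  · exact ⟨w, h⟩
  · exact ⟨w', fun z => (h z).symm⟩

theorem sn_eq_of {w u : Pl L} {σ : L →ₐ[k] L} (h : ∀ z, nv w (σ z) = nv u z) {m : ℕ} (X : Fin m → L) :
    sn w (fun i => σ (X i)) = sn u X := by
  unfold sn
  exact iSup_congr fun i => h (X i)

theorem height_conj {σ : L →ₐ[k] L} (hσ : ∀ z, σ (σ z) = z)
    (hPl : ∀ (v : Pl k) (w : Pl L), w ∈ above L v → PlCj σ v w) {m : ℕ} (X : Fin m → L) (hX : X ≠ 0) :
    Height.logHeight (fun i => σ (X i)) = Height.logHeight X := by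
  classical
  choose τ hτ using exists_tau hPl
  have hττ : ∀ w, τ (τ w) = w := fun w => nv_inj fun z => by
    rw [← hτ (τ w) z, ← hτ w (σ z), hσ]
  have hY : (fun i => σ (X i)) ≠ 0 := by
    intro h
    apply hX
    funext i
    exact (map_eq_zero σ).1 (congrFun h i)
  have f1 : (Function.support fun w : FinitePlace L => Real.log (sn (.inr w) X)).Finite :=
    log_support _ (fin_support_sn hX)
  have f2 : (Function.support fun w : FinitePlace L => Real.log (sn (.inr w) fun i => σ (X i))).Finite :=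
    log_support _ (fin_support_sn hY)
  set W0 : Finset (Pl L) := univ.image Sum.inl ∪ (f1.toFinset.image Sum.inr ∪ f2.toFinset.image Sum.inr) with hW0
  set W : Finset (Pl L) := W0 ∪ W0.image τ with hW
  have hinl : ∀ w : InfinitePlace L, Sum.inl w ∈ W := by
    intro w
    simp [hW, hW0]
  have e1 := logHeight_eq_sum hX W hinl (by
    intro w hw
    refine mem_union_left _ ?_
    simp only [hW0, mem_union, mem_image, Set.Finite.mem_toFinset]
    right; left
    exact ⟨w, hw, rfl⟩)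
  have e2 := logHeight_eq_sum hY W hinl (by
    intro w hw
    refine mem_union_left _ ?_
    simp only [hW0, mem_union, mem_image, Set.Finite.mem_toFinset]
    right; right
    exact ⟨w, hw, rfl⟩)
  have hmaps : ∀ w ∈ W, τ w ∈ W := by
    intro w hw
    rcases mem_union.1 hw with h | h
    · exact mem_union_right _ (mem_image_of_mem τ h)
    · obtain ⟨u, hu, rfl⟩ := mem_image.1 h
      rw [hττ]
      exact mem_union_left _ hu
  rw [e1, e2]
  refine sum_nbij' τ τ hmaps hmaps (fun w _ => hττ w) (fun w _ => hττ w) fun w _ => ?_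
  rw [sn_eq_of (hτ w)]

theorem two_sum {σ : L →ₐ[k] L} {v : Pl k} {w : Pl L} (hw : w ∈ above L v) (hP : PlCj σ v w) (G : Pl L → ℝ) (G' : ℝ)
    (h1 : (∀ z, nv w (σ z) = nv w z) → G' = G w) (h2 : ∀ w', (∀ z, nv w' z = nv w (σ z)) → G w' = G') :
    2 * ((∑ u ∈ above L v, G u) / finrank k L) = (G w + G') / ldeg v w := by
  classical
  have hl : (ldeg v w : ℝ) ≠ 0 := by
    exact_mod_cast ldeg_ne_zero hw
  rcases hP with ⟨hset, hdeg, h⟩ | ⟨w', hne, hset, hdeg, hdeg', h⟩
  · rw [hset, sum_singleton, ← hdeg, h1 h]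
    ring
  · have hset' : above L v = {w, w'} := by
      ext u
      rw [hset u, mem_insert, mem_singleton]
    rw [hset', sum_pair hne.symm, hdeg', hdeg, h2 w' h]
    push_cast
    ring

end conj

variable {k : Type u} [Field k] [NumberField k]

theorem Pt.vl_sq_ne {v : Pl k} (P : Pt v) (m : Fin 3 → k) (hX : vL m P.X ≠ 0) (hY : vL m P.Y ≠ 0) :
    vl (sy m m) P.F ≠ 0 := by
  intro h
  have h1 := P.sy_F m m
  rw [h, map_zero, ← two_mul] at h1
  exact mul_ne_zero two_ne (mul_ne_zero hX hY) h1.symm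

/-- the conjugate data of a point -/
structure Cjg (x : Fin 3 → AlgebraicClosure k) where
  σ : Chart.fld x →ₐ[k] Chart.fld x
  F : Fin 6 → k
  inv : ∀ z, σ (σ z) = z
  fix : ∀ z, σ z = z → z ∈ (algebraMap k (Chart.fld x)).range
  hF : ∀ a, algebraMap k (Chart.fld x) (F a) = ten (Chart.crd x) (fun a => σ (Chart.crd x a)) a
  pl : ∀ (v : Pl k) (w : Pl (Chart.fld x)), w ∈ above (Chart.fld x) v → PlCj σ v w

theorem exists_cjg (x : Fin 3 → AlgebraicClosure k) (hd : Chart.dg x ≤ 2) : Nonempty (Cjg x) := by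
  obtain ⟨σ, h1, h2, _, h4⟩ := exists_sig (k := k) (L := Chart.fld x) hd
  have h5 : ∀ a, ∃ c : k, algebraMap k (Chart.fld x) c = ten (Chart.crd x) (fun a => σ (Chart.crd x a)) a := by
    intro a
    refine h2 _ ?_
    have hs2 : σ 2 = 2 := map_ofNat σ 2
    fin_cases a <;> simp [ten, h1, hs2] <;> ring
  choose F hF using h5
  exact ⟨⟨σ, F, h1, h2, hF, h4⟩⟩

theorem crd_ne {x : Fin 3 → AlgebraicClosure k} (hx : ∃ j, x j = 1) : Chart.crd x ≠ 0 := by
  obtain ⟨j, hj⟩ := hx
  intro h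
  have h1 : (Chart.crd x j : AlgebraicClosure k) = 0 := by
    rw [h]
    rfl
  have h2 : (Chart.crd x j : AlgebraicClosure k) = 1 := hj
  rw [h2] at h1
  exact one_ne_zero h1

namespace Cjg

variable {x : Fin 3 → AlgebraicClosure k} (c : Cjg x)

/-- the conjugate point -/
noncomputable def Y (a : Fin 3) : Chart.fld x := c.σ (Chart.crd x a)

theorem Y_ne (hx : ∃ j, x j = 1) : c.Y ≠ 0 := by
  intro h
  apply crd_ne hx
  funext i
  exact (map_eq_zero c.σ).1 (congrFun h i)

theorem vL_Y (m : Fin 3 → k) : vL m c.Y = c.σ (vL m (Chart.crd x)) := by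
  unfold vL Y
  rw [map_sum]
  exact sum_congr rfl fun a _ => by rw [map_mul, AlgHom.commutes]

theorem exists_w (v : Pl k) : ∃ w, w ∈ above (Chart.fld x) v := by
  have hfd : FiniteDimensional k (Chart.fld x) := FiniteDimensional.right ℚ k (Chart.fld x)
  have h1 := sum_ldeg (L' := Chart.fld x) v
  by_contra hcon
  push Not at hcon
  have h2 : above (Chart.fld x) v = ∅ := eq_empty_of_forall_notMem hcon
  rw [h2, sum_empty] at h1
  have h3 : 0 < finrank k (Chart.fld x) := finrank_pos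
  omega

/-- a place above `v` -/
noncomputable def w (v : Pl k) : Pl (Chart.fld x) := (exists_w (x := x) v).choose

theorem hw (v : Pl k) : w (x := x) v ∈ above (Chart.fld x) v := (exists_w (x := x) v).choose_spec

/-- the point with a place -/
noncomputable def pt (hx : ∃ j, x j = 1) (hd : Chart.dg x ≤ 2) (v : Pl k) : Pt v :=
  { L := Chart.fld x
    w := w v
    hw := hw v
    hr := by
      have h1 := sum_ldeg (L' := Chart.fld x) v
      have h2 : ldeg v (w (x := x) v) ≤ ∑ w ∈ above (Chart.fld x) v, ldeg v w :=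
        single_le_sum (fun _ _ => Nat.zero_le _) (hw v)
      have h3 : finrank k (Chart.fld x) ≤ 2 := hd
      omega
    X := Chart.crd x
    Y := c.Y
    hX := crd_ne hx
    hY := c.Y_ne hx
    F := c.F
    hF := c.hF }

theorem two_lam (hx : ∃ j, x j = 1) (hd : Chart.dg x ≤ 2) (v : Pl k) (m : Fin 3 → k) :
    2 * Chart.lam m v x = (c.pt hx hd v).al m + (c.pt hx hd v).be m := by
  have h1 := two_sum (hw (x := x) v) (c.pl v _ (hw v))
    (fun u => Real.log (sn u (Chart.crd x)) - Real.log (nv u (vL m (Chart.crd x))))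
    (Real.log (sn (w v) c.Y) - Real.log (nv (w v) (vL m c.Y))) (fun h => by
      rw [c.vL_Y, h]
      have : sn (w (x := x) v) c.Y = sn (w v) (Chart.crd x) := sn_eq_of (k := k) h _
      rw [this]) (fun w' h => by
      rw [c.vL_Y, ← h]
      have : sn (w (x := x) v) c.Y = sn w' (Chart.crd x) := sn_eq_of (k := k) (fun z => (h z).symm) _
      rw [this])
  have h2 : Chart.lam m v x = (∑ u ∈ above (Chart.fld x) v,
      (Real.log (sn u (Chart.crd x)) - Real.log (nv u (vL m (Chart.crd x))))) / finrank k (Chart.fld x) := rfl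
  rw [h2, h1, add_div]
  rfl

theorem F_ne (hx : ∃ j, x j = 1) : c.F ≠ 0 := by
  intro h
  apply ten_ne_zero (crd_ne hx) (c.Y_ne hx)
  funext a
  have h1 := c.hF a
  rw [h, Pi.zero_apply, map_zero] at h1
  exact h1.symm

theorem height_le (hx : ∃ j, x j = 1) (hd : Chart.dg x ≤ 2) :
    vH c.F ≤ 2 * Chart.hgt x + (finrank ℚ k * 2 : ℕ) * Real.log 9 := by
  have hfd : FiniteDimensional k (Chart.fld x) := FiniteDimensional.right ℚ k (Chart.fld x)
  have hpos : 0 < finrank k (Chart.fld x) := finrank_pos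
  have hdp : (0 : ℝ) < Chart.dg x := by exact_mod_cast hpos
  have hd1 : (1 : ℝ) ≤ Chart.dg x := by exact_mod_cast hpos
  have h1 := (height_ten (crd_ne hx) (c.Y_ne hx)).1
  have h2 : Height.logHeight c.Y = Height.logHeight (Chart.crd x) := height_conj c.inv c.pl _ (crd_ne hx)
  have h3 : (ten (Chart.crd x) c.Y) = fun a => algebraMap k (Chart.fld x) (c.F a) := funext fun a => (c.hF a).symm
  rw [h2, h3, logHeight_algebraMap (c.F_ne hx), ← V2.vH_eq (c.F_ne hx)] at h1
  have h4 : (finrank k (Chart.fld x) : ℝ) = Chart.dg x := rfl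
  have h5 : Height.logHeight (Chart.crd x) = Chart.dg x * Chart.hgt x := by
    unfold Chart.hgt
    rw [mul_div_cancel₀ _ hdp.ne']
  rw [h4, h5] at h1
  have h6 : (Fintype.card (InfinitePlace (Chart.fld x)) : ℝ) ≤ (finrank ℚ k * 2 : ℕ) := by
    exact_mod_cast card_inf_le' (k := k) (L := Chart.fld x) hd
  have h7 : 0 ≤ Real.log 9 := Real.log_nonneg (by norm_num)
  have h8 : (0 : ℝ) ≤ (finrank ℚ k * 2 : ℕ) * Real.log 9 := mul_nonneg (Nat.cast_nonneg _) h7
  have h9 := mul_le_mul_of_nonneg_right h6 h7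
  refine le_of_mul_le_mul_left ?_ hdp
  nlinarith

end Cjg

theorem germ {q : ℕ} (l : Fin q → Fin 3 → k) (hl : GP l) (hq : 3 ≤ q) (S : Finset (Pl k)) (ε : ℝ) (hε : 0 < ε)
    (P : (Fin 3 → AlgebraicClosure k) → Prop)
    (hno : ∀ C : ℝ, ∃ x, P x ∧ (∃ j, x j = 1) ∧ Chart.dg x ≤ 2 ∧ (∀ i, Chart.val (l i) x ≠ 0) ∧
      (6 + ε) * Chart.hgt x + C < ∑ ν ∈ S, ∑ i, Chart.lam (l i) ν x) :
    ∃ (U : Ultrafilter ℕ) (x : ℕ → Fin 3 → AlgebraicClosure k) (c : ∀ n, Cjg (x n)),
      (∀ n : ℕ, P (x n) ∧ (∃ j, x n j = 1) ∧ Chart.dg (x n) ≤ 2 ∧ (∀ i, Chart.val (l i) (x n) ≠ 0) ∧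
        (6 + ε) * Chart.hgt (x n) + n < ∑ ν ∈ S, ∑ i, Chart.lam (l i) ν (x n)) ∧
      (U : Filter ℕ) ≤ atTop ∧ Tendsto (fun n => vH (c n).F) (U : Filter ℕ) atTop ∧
      Tendsto (fun n => Chart.hgt (x n)) (U : Filter ℕ) atTop ∧
      (∀ v : Pl k, ∃ a b : Fin q → ℝ, Plc (van U fun n => (c n).F).mkQ l (sz U (fun n => (c n).F) v) a b ∧
        ∀ m : Fin 3 → k, (∀ᶠ n in (U : Filter ℕ), vL m (Chart.crd (x n)) = 0) → ∀ i j, i ≠ j →
          m ∉ Submodule.span k {l i, l j} → (a i = 0 ∨ a j = 0) ∧ (b i = 0 ∨ b j = 0)) ∧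
      (∀ i, sy (l i) (l i) ∉ van U fun n => (c n).F) ∧
      6 < ∑ v ∈ S, Tot (van U fun n => (c n).F).mkQ l (sz U (fun n => (c n).F) v) := by
  classical
  set U : Ultrafilter ℕ := Filter.hyperfilter ℕ with hU
  have hUtop : (U : Filter ℕ) ≤ atTop := by
    rw [← Nat.cofinite_eq_atTop]
    exact Filter.hyperfilter_le_cofinite
  choose x hxP hx1 hxd hxD hxN using fun n : ℕ => hno n
  have c : ∀ n, Cjg (x n) := fun n => (exists_cjg (x n) (hxd n)).some
  set F : ℕ → Fin 6 → k := fun n => (c n).F with hF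
  have hvx : ∀ n i, vL (l i) (Chart.crd (x n)) ≠ 0 := hxD
  have hvy : ∀ n i, vL (l i) (c n).Y ≠ 0 := fun n i => by
    rw [(c n).vL_Y]
    exact (map_ne_zero _).2 (hvx n i)
  -- the sum over `S`
  have hC0 : ∀ v : Pl k, 0 ≤ C0 v := C0_nonneg
  have hlow : ∀ n, 2 * ∑ ν ∈ S, ∑ i, Chart.lam (l i) ν (x n) ≤
      ∑ v ∈ S, ∑ i, ((c n).pt (hx1 n) (hxd n) v).sz (sy (l i) (l i)) + ∑ v ∈ S, q * C0 v := by
    intro n
    rw [mul_sum, ← sum_add_distrib]
    refine sum_le_sum fun v _ => ?_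
    rw [mul_sum]
    have h1 : ∀ i, 2 * Chart.lam (l i) v (x n) ≤ ((c n).pt (hx1 n) (hxd n) v).sz (sy (l i) (l i)) + C0 v := by
      intro i
      rw [(c n).two_lam (hx1 n) (hxd n)]
      have h2 := (abs_le.1 (((c n).pt (hx1 n) (hxd n) v).sq (l i) (hvx n i) (hvy n i))).1
      linarith
    refine (sum_le_sum fun i _ => h1 i).trans (le_of_eq ?_)
    rw [sum_add_distrib, sum_const, card_univ, Fintype.card_fin, nsmul_eq_mul]
  have hEn : ∀ n i, vl (sy (l i) (l i)) (F n) ≠ 0 := fun n i =>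
    ((c n).pt (hx1 n) (hxd n) (Sum.inl (Classical.arbitrary _))).vl_sq_ne (l i) (hvx n i) (hvy n i)
  have hhn : ∀ n, 0 ≤ Chart.hgt (x n) := fun n => by
    unfold Chart.hgt
    exact div_nonneg (Height.logHeight_nonneg _) (Nat.cast_nonneg _)
  have hH : Tendsto (fun n => vH (F n)) (U : Filter ℕ) atTop := by
    have h1 : ∀ n : ℕ, (2 * n - (∑ i, gsum (lcf (sy (l i) (l i))) + ∑ v ∈ S, q * C0 v)) / q ≤ vH (F n) := by
      intro n
      have h2 := hxN n
      have h3 := hlow n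
      have h4 : ∑ v ∈ S, ∑ i, ((c n).pt (hx1 n) (hxd n) v).sz (sy (l i) (l i)) ≤
          ∑ i, (vH (F n) + gsum (lcf (sy (l i) (l i)))) := by
        rw [sum_comm]
        exact sum_le_sum fun i _ => sum_wl_le (sy (l i) (l i)) (F n) (hEn n i) S
      rw [sum_add_distrib, sum_const, card_univ, Fintype.card_fin, nsmul_eq_mul] at h4
      have hq0 : (0 : ℝ) < q := by
        exact_mod_cast (by omega : 0 < q)
      rw [div_le_iff₀ hq0]
      have h5 := hhn n
      nlinarith
    refine Tendsto.mono_left ?_ hUtop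
    refine tendsto_atTop_mono h1 ?_
    refine Tendsto.atTop_div_const (by exact_mod_cast (by omega : 0 < q)) ?_
    exact tendsto_atTop_add_const_right _ _ (tendsto_natCast_atTop_atTop.const_mul_atTop two_pos)
  have hE : ∀ i, sy (l i) (l i) ∉ van U F := by
    intro i h
    obtain ⟨n, hn⟩ := Eventually.exists (show ∀ᶠ n in (U : Filter ℕ), vl (sy (l i) (l i)) (F n) = 0 from h)
    exact hEn n i hn
  have hh : Tendsto (fun n => Chart.hgt (x n)) (U : Filter ℕ) atTop := by
    have h1 : ∀ n, (vH (F n) - (finrank ℚ k * 2 : ℕ) * Real.log 9) / 2 ≤ Chart.hgt (x n) := fun n => by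
      have := (c n).height_le (hx1 n) (hxd n)
      rw [div_le_iff₀ two_pos]
      show vH (c n).F - _ ≤ _
      linarith
    refine tendsto_atTop_mono h1 (Tendsto.atTop_div_const two_pos ?_)
    exact tendsto_atTop_add_const_right _ _ hH
  refine ⟨U, x, c, fun n => ⟨hxP n, hx1 n, hxd n, hxD n, hxN n⟩, hUtop, hH, hh, fun v => ?_, hE, ?_⟩
  · obtain ⟨a, b, h1, h2⟩ := plc_of U v (fun n => (c n).pt (hx1 n) (hxd n) v) hH l hl hq
      (fun n i => ⟨hvx n i, hvy n i⟩)
    refine ⟨a, b, h1, fun m hm i j hij hmem => h2 m ?_ i j hij hmem⟩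
    filter_upwards [hm] with n hn
    refine ⟨hn, ?_⟩
    show vL m (c n).Y = 0
    rw [(c n).vL_Y, hn, map_zero]
  · -- the total
    set C1 : ℝ := (finrank ℚ k * 2 : ℕ) * Real.log 9 with hC1
    have hlim : Lm U (fun n => vH (F n))
        (fun n => ∑ v ∈ S, ∑ i, ((c n).pt (hx1 n) (hxd n) v).sz (sy (l i) (l i)))
        (∑ v ∈ S, ∑ i, szf U F v (sy (l i) (l i))) := by
      unfold Lm
      simp only [sum_div]
      refine tendsto_finsetSum _ fun v _ => tendsto_finsetSum _ fun i _ => ?_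
      exact szf_tendsto U F hH v _ (hE i)
    have hlim2 : Lm U (fun n => vH (F n)) (fun n => (6 + ε) * vH (F n)) (6 + ε) := by
      have h1 : Tendsto (fun _ : ℕ => 6 + ε) (U : Filter ℕ) (𝓝 (6 + ε)) := tendsto_const_nhds
      refine h1.congr' ?_
      filter_upwards [hH.eventually_gt_atTop 0] with n hn
      rw [mul_div_cancel_right₀ _ hn.ne']
    have h3 : 6 + ε ≤ ∑ v ∈ S, ∑ i, szf U F v (sy (l i) (l i)) := by
      refine hlim2.le hH hlim ((6 + ε) * C1 + ∑ v ∈ S, q * C0 v) (Eventually.of_forall fun n => ?_)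
      have h4 := (c n).height_le (hx1 n) (hxd n)
      have h5 := hxN n
      have h6 := hlow n
      have h7 : (0 : ℝ) ≤ n := Nat.cast_nonneg n
      have h8 : (6 + ε) * vH (F n) ≤ (6 + ε) * (2 * Chart.hgt (x n) + C1) :=
        mul_le_mul_of_nonneg_left h4 (by linarith)
      nlinarith
    have h4 : ∑ v ∈ S, Tot (van U F).mkQ l (sz U F v) = ∑ v ∈ S, ∑ i, szf U F v (sy (l i) (l i)) :=
      sum_congr rfl fun v _ => sum_congr rfl fun i _ => sz_mk U F hH v _ (hE i)
    have h5 : ∑ v ∈ S, Tot (van U fun n => (c n).F).mkQ l (sz U (fun n => (c n).F) v) =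
        ∑ v ∈ S, ∑ i, szf U F v (sy (l i) (l i)) := h4
    rw [h5]
    linarith

end Pool.Agent.QP
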