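import Pool.Agent.Helper64.QP.Conj
import Pool.Agent.Helper16.QP.Defs
import Pool.Agent.Helper64.UD.UnitsM

/-!
# QP, block LOC: the size of a symmetric tensor of rank at most two
-/

set_option autoImplicit false
set_option linter.unusedSectionVars false

namespace Pool.Agent.QP

open NumberField Finset Module
open Pool.Agent.Helper64.Vojta (Pl nv sn above mem_above nv_nonneg nv_mul nv_one nv_zero nv_pos nv_inv le_sn sn_le sn_pos
  nv_sum_le nv_sum_le_inr fin_support_sn fin_support_nv log_support nv_int_le_one card_inf_le')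
open Pool.Agent.Helper52.Vojta (ldeg nv_above sum_ldeg logHeight_eq_sum)

universe u

section

variable {L : Type u} [Field L] [NumberField L]

/-- the constant of the triangle inequality -/
noncomputable def KK (w : Pl L) : ℝ := match w with | .inl _ => 9 | .inr _ => 1

theorem KK_ge (w : Pl L) : 1 ≤ KK w := by
  rcases w with w | w
  · show (1 : ℝ) ≤ 9
    norm_num
  · exact le_rfl

theorem KK_pos (w : Pl L) : 0 < KK w := zero_lt_one.trans_le (KK_ge w)

theorem nv_add_le (w : Pl L) (a b : L) : nv w (a + b) ≤ KK w * max (nv w a) (nv w b) := by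
  have h0 : 0 ≤ max (nv w a) (nv w b) := (nv_nonneg w a).trans (le_max_left _ _)
  have hf : ∀ i ∈ (univ : Finset (Fin 2)), nv w ((![a, b] : Fin 2 → L) i) ≤ max (nv w a) (nv w b) := by
    intro i _
    fin_cases i
    · exact le_max_left _ _
    · exact le_max_right _ _
  have hs : ∑ i ∈ (univ : Finset (Fin 2)), (![a, b] : Fin 2 → L) i = a + b := by
    rw [Fin.sum_univ_two]
    rfl
  rcases w with w | w
  · have h1 := nv_sum_le (.inl w) univ _ _ h0 hf
    rw [hs, card_univ, Fintype.card_fin] at h1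
    show _ ≤ (9 : ℝ) * _
    have h2 : (((2 : ℕ) : ℝ) + 1) ^ 2 = 9 := by norm_num
    rwa [h2] at h1
  · have h1 := nv_sum_le_inr w univ _ _ h0 hf
    rw [hs] at h1
    show _ ≤ (1 : ℝ) * _
    rwa [one_mul]

theorem nv_neg (w : Pl L) (a : L) : nv w (-a) = nv w a := by
  have h : nv w (-1 : L) = 1 := by
    have h1 : nv w (-1 : L) * nv w (-1 : L) = 1 := by
      rw [← nv_mul, neg_mul_neg, one_mul, nv_one]
    exact (mul_self_eq_one_iff.1 h1).resolve_right fun h2 => by
      have := nv_nonneg w (-1 : L)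
      linarith
  rw [← neg_one_mul, nv_mul, h, one_mul]

theorem nv_two_le (w : Pl L) : nv w (2 : L) ≤ KK w := by
  have h := nv_add_le w (1 : L) 1
  rw [nv_one, max_self, mul_one, one_add_one_eq_two] at h
  exact h

theorem two_ne : (2 : L) ≠ 0 := two_ne_zero

theorem sn_ten_le (w : Pl L) (X Y : Fin 3 → L) : sn w (ten X Y) ≤ KK w * (sn w X * sn w Y) := by
  have hX := fun i => le_sn w X i
  have hY := fun i => le_sn w Y i
  have hX0 : 0 ≤ sn w X := (nv_nonneg w _).trans (hX 0)
  have hY0 : 0 ≤ sn w Y := (nv_nonneg w _).trans (hY 0)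
  have hp : ∀ i j, nv w (X i * Y j) ≤ sn w X * sn w Y := fun i j => by
    rw [nv_mul]
    exact mul_le_mul (hX i) (hY j) (nv_nonneg _ _) hX0
  have h2 : ∀ i, nv w (2 * (X i * Y i)) ≤ KK w * (sn w X * sn w Y) := fun i => by
    rw [nv_mul]
    exact mul_le_mul (nv_two_le w) (hp i i) (nv_nonneg _ _) (KK_pos w).le
  have h3 : ∀ i j, nv w (X i * Y j + X j * Y i) ≤ KK w * (sn w X * sn w Y) := fun i j =>
    (nv_add_le w _ _).trans (mul_le_mul_of_nonneg_left (max_le (hp i j) (hp j i)) (KK_pos w).le)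
  refine sn_le w _ _ (mul_nonneg (KK_pos w).le (mul_nonneg hX0 hY0)) fun i => ?_
  fin_cases i
  · exact h2 0
  · exact h2 1
  · exact h2 2
  · exact h3 0 1
  · exact h3 0 2
  · exact h3 1 2

theorem le_sn_ten (w : Pl L) (X Y : Fin 3 → L) (a b : Fin 3) (h : a ≠ b) :
    nv w (X a * Y b + X b * Y a) ≤ sn w (ten X Y) := by
  have h3 := le_sn w (ten X Y) 3
  have h4 := le_sn w (ten X Y) 4
  have h5 := le_sn w (ten X Y) 5
  have e3 : (ten X Y) 3 = X 0 * Y 1 + X 1 * Y 0 := rfl
  have e4 : (ten X Y) 4 = X 0 * Y 2 + X 2 * Y 0 := rfl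
  have e5 : (ten X Y) 5 = X 1 * Y 2 + X 2 * Y 1 := rfl
  rw [e3] at h3
  rw [e4] at h4
  rw [e5] at h5
  fin_cases a <;> fin_cases b
  · exact absurd rfl h
  · exact h3
  · exact h4
  · rw [add_comm]
    exact h3
  · exact absurd rfl h
  · exact h5
  · rw [add_comm]
    exact h4
  · rw [add_comm]
    exact h5
  · exact absurd rfl h

theorem le_sn_ten' (w : Pl L) (X Y : Fin 3 → L) (a : Fin 3) : nv w (2 * (X a * Y a)) ≤ sn w (ten X Y) := by
  fin_cases a
  · exact le_sn w (ten X Y) 0
  · exact le_sn w (ten X Y) 1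
  · exact le_sn w (ten X Y) 2

theorem exists_sn (w : Pl L) (X : Fin 3 → L) : ∃ a, nv w (X a) = sn w X := by
  obtain ⟨a, ha⟩ := exists_eq_ciSup_of_finite (f := fun i => nv w (X i))
  exact ⟨a, ha⟩

theorem le_ten (w : Pl L) (X Y : Fin 3 → L) (hY : Y ≠ 0) :
    nv w 2 * (sn w X * sn w Y) ≤ KK w * (KK w * sn w (ten X Y)) := by
  obtain ⟨a, ha⟩ := exists_sn w X
  obtain ⟨b, hb⟩ := exists_sn w Y
  have hYp := sn_pos w hY
  have hX0 : 0 ≤ sn w X := (nv_nonneg w _).trans (le_sn w X 0)
  have hT0 : 0 ≤ sn w (ten X Y) := (nv_nonneg w _).trans (le_sn w _ 0)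
  have hK := KK_ge w
  have hK2 := nv_two_le w
  have h20 := nv_nonneg w (2 : L)
  have key1 : ∀ t, t ≤ KK w * sn w (ten X Y) → t ≤ KK w * (KK w * sn w (ten X Y)) := fun t ht =>
    ht.trans (mul_le_mul_of_nonneg_left (by nlinarith) (KK_pos w).le)
  by_cases hab : a = b
  · subst hab
    have h1 := le_sn_ten' w X Y a
    rw [nv_mul, nv_mul, ha, hb] at h1
    exact key1 _ (h1.trans (by nlinarith))
  · rcases lt_or_ge (KK w * (nv w (X b) * nv w (Y a))) (sn w X * sn w Y) with h | h
    · have h1 : sn w X * sn w Y ≤ KK w * nv w (X a * Y b + X b * Y a) := by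
        have h2 := nv_add_le w (X a * Y b + X b * Y a) (-(X b * Y a))
        rw [add_neg_cancel_right, nv_neg, nv_mul w (X a), nv_mul w (X b), ha, hb] at h2
        rcases le_total (nv w (X a * Y b + X b * Y a)) (nv w (X b) * nv w (Y a)) with h3 | h3
        · rw [max_eq_right h3] at h2
          linarith
        · rwa [max_eq_left h3] at h2
      have h2 := le_sn_ten w X Y a b hab
      have h3 : sn w X * sn w Y ≤ KK w * sn w (ten X Y) := h1.trans (mul_le_mul_of_nonneg_left h2 (KK_pos w).le)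
      exact mul_le_mul hK2 h3 (mul_nonneg hX0 hYp.le) (KK_pos w).le
    · have h1 : sn w X ≤ KK w * nv w (X b) := by
        have h2 : KK w * (nv w (X b) * nv w (Y a)) ≤ KK w * nv w (X b) * sn w Y := by
          rw [mul_assoc]
          exact mul_le_mul_of_nonneg_left (mul_le_mul_of_nonneg_left (le_sn w Y a) (nv_nonneg _ _)) (KK_pos w).le
        exact le_of_mul_le_mul_right (h.trans h2) hYp
      have h2 := le_sn_ten' w X Y b
      rw [nv_mul, nv_mul, hb] at h2
      refine key1 _ ?_
      calc nv w 2 * (sn w X * sn w Y) ≤ nv w 2 * ((KK w * nv w (X b)) * sn w Y) :=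
            mul_le_mul_of_nonneg_left (mul_le_mul_of_nonneg_right h1 hYp.le) h20
        _ = KK w * (nv w 2 * (nv w (X b) * sn w Y)) := by ring
        _ ≤ _ := mul_le_mul_of_nonneg_left h2 (KK_pos w).le

theorem ten_ne_zero {X Y : Fin 3 → L} (hX : X ≠ 0) (hY : Y ≠ 0) : ten X Y ≠ 0 := by
  obtain ⟨w⟩ : Nonempty (Pl L) := ⟨.inl (Classical.arbitrary _)⟩
  intro h
  have h1 := le_ten w X Y hY
  have h2 : sn w (ten X Y) ≤ 0 := by
    rw [h]
    exact sn_le w _ _ le_rfl fun i => by
      show nv w (0 : L) ≤ 0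
      rw [nv_zero]
  have h3 := mul_pos (nv_pos w (two_ne (L := L))) (mul_pos (sn_pos w hX) (sn_pos w hY))
  have h4 := KK_pos w
  nlinarith [mul_nonneg h4.le h4.le]

theorem log_ten_le (w : Pl L) {X Y : Fin 3 → L} (hX : X ≠ 0) (hY : Y ≠ 0) :
    Real.log (sn w (ten X Y)) ≤ Real.log (sn w X) + Real.log (sn w Y) + Real.log (KK w) := by
  have h := Real.log_le_log (sn_pos w (ten_ne_zero hX hY)) (sn_ten_le w X Y)
  rw [Real.log_mul (KK_pos w).ne' (mul_pos (sn_pos w hX) (sn_pos w hY)).ne',
    Real.log_mul (sn_pos w hX).ne' (sn_pos w hY).ne'] at h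
  linarith

theorem le_log_ten (w : Pl L) {X Y : Fin 3 → L} (hX : X ≠ 0) (hY : Y ≠ 0) :
    Real.log (sn w X) + Real.log (sn w Y) + Real.log (nv w (2 : L)) ≤ Real.log (sn w (ten X Y)) + 2 * Real.log (KK w) := by
  have h := Real.log_le_log (mul_pos (nv_pos w (two_ne (L := L))) (mul_pos (sn_pos w hX) (sn_pos w hY))) (le_ten w X Y hY)
  rw [Real.log_mul (nv_pos w (two_ne (L := L))).ne' (mul_pos (sn_pos w hX) (sn_pos w hY)).ne',
    Real.log_mul (sn_pos w hX).ne' (sn_pos w hY).ne',
    Real.log_mul (KK_pos w).ne' (mul_pos (KK_pos w) (sn_pos w (ten_ne_zero hX hY))).ne',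
    Real.log_mul (KK_pos w).ne' (sn_pos w (ten_ne_zero hX hY)).ne'] at h
  linarith

theorem log_KK_nonneg (w : Pl L) : 0 ≤ Real.log (KK w) := Real.log_nonneg (KK_ge w)

/-- heights of tensors -/
theorem height_ten {X Y : Fin 3 → L} (hX : X ≠ 0) (hY : Y ≠ 0) :
    Height.logHeight (ten X Y) ≤ Height.logHeight X + Height.logHeight Y + Fintype.card (InfinitePlace L) * Real.log 9 ∧
      Height.logHeight X + Height.logHeight Y ≤ Height.logHeight (ten X Y) +
        2 * (Fintype.card (InfinitePlace L) * Real.log 9) := by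
  classical
  have f1 : (Function.support fun w : FinitePlace L => Real.log (sn (.inr w) X)).Finite :=
    log_support _ (fin_support_sn hX)
  have f2 : (Function.support fun w : FinitePlace L => Real.log (sn (.inr w) Y)).Finite :=
    log_support _ (fin_support_sn hY)
  have f3 : (Function.support fun w : FinitePlace L => Real.log (sn (.inr w) (ten X Y))).Finite :=
    log_support _ (fin_support_sn (ten_ne_zero hX hY))
  have f4 : (Function.support fun w : FinitePlace L => Real.log (nv (.inr w) (2 : L))).Finite :=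
    log_support _ (fin_support_nv two_ne)
  set W : Finset (Pl L) := univ.image Sum.inl ∪ (f1.toFinset.image Sum.inr ∪ (f2.toFinset.image Sum.inr ∪
    (f3.toFinset.image Sum.inr ∪ f4.toFinset.image Sum.inr))) with hW
  have hinl : ∀ w : InfinitePlace L, Sum.inl w ∈ W := by
    intro w
    simp [hW]
  have e1 := logHeight_eq_sum hX W hinl (by
    intro w hw
    simp only [hW, mem_union, mem_image, Set.Finite.mem_toFinset]
    right; left
    exact ⟨w, hw, rfl⟩)
  have e2 := logHeight_eq_sum hY W hinl (by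
    intro w hw
    simp only [hW, mem_union, mem_image, Set.Finite.mem_toFinset]
    right; right; left
    exact ⟨w, hw, rfl⟩)
  have e3 := logHeight_eq_sum (ten_ne_zero hX hY) W hinl (by
    intro w hw
    simp only [hW, mem_union, mem_image, Set.Finite.mem_toFinset]
    right; right; right; left
    exact ⟨w, hw, rfl⟩)
  have e4 := Pool.Agent.UD.prod_formula_sum (two_ne (L := L)) W hinl (by
    intro w hw
    simp only [hW, mem_union, mem_image, Set.Finite.mem_toFinset]
    right; right; right; right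
    exact ⟨w, hw, rfl⟩)
  have e5 : ∑ w ∈ W, Real.log (KK w) ≤ Fintype.card (InfinitePlace L) * Real.log 9 := by
    rw [← Finset.toLeft_disjSum_toRight (u := W), Finset.sum_disjSum]
    have h1 : ∑ w ∈ W.toRight, Real.log (KK (.inr w : Pl L)) = 0 := Finset.sum_eq_zero fun w _ => Real.log_one
    have h2 : ∑ w ∈ W.toLeft, Real.log (KK (.inl w : Pl L)) = W.toLeft.card * Real.log 9 := by
      have : ∀ w ∈ W.toLeft, Real.log (KK (.inl w : Pl L)) = Real.log 9 := fun w _ => rfl
      rw [Finset.sum_congr rfl this, Finset.sum_const, nsmul_eq_mul]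
    rw [h1, h2, add_zero]
    refine mul_le_mul_of_nonneg_right ?_ (Real.log_nonneg (by norm_num))
    exact_mod_cast Finset.card_le_univ _
  constructor
  · rw [e1, e2, e3, ← sum_add_distrib]
    refine le_trans (sum_le_sum fun w _ => log_ten_le w hX hY) ?_
    rw [sum_add_distrib]
    linarith
  · have h1 := sum_le_sum fun w (_ : w ∈ W) => le_log_ten w hX hY
    rw [sum_add_distrib, sum_add_distrib, sum_add_distrib, ← mul_sum, e4, ← e1, ← e2, ← e3] at h1
    linarith

end

end Pool.Agent.QP
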