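import Pool.Agent.Helper64.QP.Pt
import Pool.Agent.Helper61.QP.Sch
import Pool.Agent.Helper26.DMC.SU1

/-!
# QP, block LOC: the limits at one place
-/

set_option autoImplicit false
set_option linter.unusedSectionVars false

namespace Pool.Agent.QP

open NumberField Finset Module Filter Topology
open Pool.Agent.Helper64.Vojta (Pl nv sn above mem_above nv_nonneg nv_mul nv_one nv_zero nv_pos nv_inv le_sn sn_le sn_pos
  nv_sum_le)
open Pool.Agent.Helper52.Vojta (ldeg nv_above sum_ldeg sn_above)
open Pool.Agent.V2 (vn vH)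
open Pool.Agent.Helper26.DMC

universe u

variable {k : Type u} [Field k] [NumberField k]

/-- A form in the span of two others. -/
theorem al_span (v : Pl k) (m l l' : Fin 3 → k) (h : m ∈ Submodule.span k {l, l'}) :
    ∃ C : ℝ, ∀ P : Pt v, vL l P.X ≠ 0 → vL l' P.X ≠ 0 → vL m P.X ≠ 0 → min (P.al l) (P.al l') - C ≤ P.al m := by
  obtain ⟨c, c', hc⟩ := Submodule.mem_span_pair.1 h
  obtain ⟨C, _, hC⟩ := al_ge v m (![l, l'] : Fin 2 → Fin 3 → k) ![c, c'] (by
    rw [Fin.sum_univ_two]
    exact hc.symm)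
  refine ⟨C, fun P h1 h2 h3 => ?_⟩
  have hp1 := nv_pos P.w h1
  have hp2 := nv_pos P.w h2
  have h4 := hC P (max (nv P.w (vL l P.X)) (nv P.w (vL l' P.X))) (lt_max_of_lt_left hp1) (fun r => by
    fin_cases r
    · exact le_max_left _ _
    · exact le_max_right _ _) h3
  refine le_trans (sub_le_sub_right ?_ _) h4
  rcases le_total (nv P.w (vL l P.X)) (nv P.w (vL l' P.X)) with h5 | h5
  · rw [max_eq_right h5]
    exact min_le_right _ _
  · rw [max_eq_left h5]
    exact min_le_left _ _

theorem inv_rows {L0 L1 L2 : Fin 3 → k} (h : d3 L0 L1 L2 ≠ 0) : ∃ c : Fin 3 → Fin 3 → k, ∀ a b,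
    (∑ r, c a r * (![L0, L1, L2] : Fin 3 → Fin 3 → k) r b) = if a = b then 1 else 0 := by
  set A : Matrix (Fin 3) (Fin 3) k := Matrix.of ![L0, L1, L2] with hA
  have hdet : A.det ≠ 0 := by
    have : A.det = d3 L0 L1 L2 := by
      rw [Matrix.det_fin_three]
      simp [hA, d3]
      ring
    rwa [this]
  refine ⟨fun a r => (A⁻¹ : Matrix (Fin 3) (Fin 3) k) a r, fun a b => ?_⟩
  have h1 : A⁻¹ * A = 1 := Matrix.nonsing_inv_mul A (isUnit_iff_ne_zero.2 hdet)
  have h2 := congrFun (congrFun h1 a) b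
  rw [Matrix.mul_apply, Matrix.one_apply] at h2
  exact h2

/-- three independent lines -/
theorem al_three (v : Pl k) (L0 L1 L2 : Fin 3 → k) (h : d3 L0 L1 L2 ≠ 0) :
    ∃ C : ℝ, ∀ P : Pt v, vL L0 P.X ≠ 0 → vL L1 P.X ≠ 0 → vL L2 P.X ≠ 0 →
      min (P.al L0) (min (P.al L1) (P.al L2)) ≤ C := by
  obtain ⟨c, hc⟩ := inv_rows h
  obtain ⟨C, _, hC⟩ := al_le v _ c hc
  refine ⟨C, fun P h0 h1 h2 => ?_⟩
  have hp0 := nv_pos P.w h0
  have h4 := hC P (max (nv P.w (vL L0 P.X)) (max (nv P.w (vL L1 P.X)) (nv P.w (vL L2 P.X)))) (lt_max_of_lt_left hp0)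
    (fun r => by
      fin_cases r
      · exact le_max_left _ _
      · exact (le_max_left _ _).trans (le_max_right _ _)
      · exact (le_max_right _ _).trans (le_max_right _ _))
  refine le_trans ?_ h4
  rcases le_total (nv P.w (vL L1 P.X)) (nv P.w (vL L2 P.X)) with h5 | h5
  · rw [max_eq_right h5]
    rcases le_total (nv P.w (vL L0 P.X)) (nv P.w (vL L2 P.X)) with h6 | h6
    · rw [max_eq_right h6]
      exact (min_le_right _ _).trans (min_le_right _ _)
    · rw [max_eq_left h6]
      exact min_le_left _ _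
  · rw [max_eq_left h5]
    rcases le_total (nv P.w (vL L0 P.X)) (nv P.w (vL L1 P.X)) with h6 | h6
    · rw [max_eq_right h6]
      exact (min_le_right _ _).trans (min_le_left _ _)
    · rw [max_eq_left h6]
      exact min_le_left _ _

/-- two lines and a line through the point, independent -/
theorem al_two (v : Pl k) (L0 L1 L2 : Fin 3 → k) (h : d3 L0 L1 L2 ≠ 0) :
    ∃ C : ℝ, ∀ P : Pt v, vL L0 P.X = 0 → vL L1 P.X ≠ 0 → vL L2 P.X ≠ 0 → min (P.al L1) (P.al L2) ≤ C := by
  obtain ⟨c, hc⟩ := inv_rows h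
  obtain ⟨C, _, hC⟩ := al_le v _ c hc
  refine ⟨C, fun P h0 h1 h2 => ?_⟩
  have hp1 := nv_pos P.w h1
  have h4 := hC P (max (nv P.w (vL L1 P.X)) (nv P.w (vL L2 P.X))) (lt_max_of_lt_left hp1)
    (fun r => by
      fin_cases r
      · show nv P.w (vL L0 P.X) ≤ _
        rw [h0, nv_zero]
        exact (lt_max_of_lt_left hp1).le
      · exact le_max_left _ _
      · exact le_max_right _ _)
  refine le_trans ?_ h4
  rcases le_total (nv P.w (vL L1 P.X)) (nv P.w (vL L2 P.X)) with h5 | h5
  · rw [max_eq_right h5]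
    exact min_le_right _ _
  · rw [max_eq_left h5]
    exact min_le_left _ _

theorem d3_ne_of {m l l' : Fin 3 → k} (hli : LinearIndependent k ![l, l']) (h : m ∉ Submodule.span k {l, l'}) :
    d3 m l l' ≠ 0 := by
  have h1 : LinearIndependent k (Fin.cons m ![l, l'] : Fin 3 → Fin 3 → k) := by
    rw [linearIndependent_finCons]
    refine ⟨hli, ?_⟩
    rwa [Matrix.range_cons, Matrix.range_cons, Matrix.range_empty, Set.union_empty, Set.singleton_union]
  have h2 : LinearIndependent k (Matrix.of ![m, l, l']).row := h1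
  rw [Matrix.linearIndependent_rows_iff_isUnit, Matrix.isUnit_iff_isUnit_det, isUnit_iff_ne_zero,
    Matrix.det_fin_three] at h2
  intro h3
  apply h2
  rw [← h3]
  simp [d3]
  ring

/-! ### limits -/

/-- `f / t` tends to `x` -/
def Lm (U : Ultrafilter ℕ) (t f : ℕ → ℝ) (x : ℝ) : Prop := Tendsto (fun n => f n / t n) (U : Filter ℕ) (𝓝 x)

section lm

variable {U : Ultrafilter ℕ} {t f g : ℕ → ℝ} {x y : ℝ}

theorem Lm.add (hf : Lm U t f x) (hg : Lm U t g y) : Lm U t (fun n => f n + g n) (x + y) := by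
  unfold Lm
  simp only [add_div]
  exact Tendsto.add hf hg

theorem Lm.const (ht : Tendsto t (U : Filter ℕ) atTop) (C : ℝ) : Lm U t (fun _ => C) 0 :=
  tendsto_const_nhds.div_atTop ht

theorem Lm.min (ht : Tendsto t (U : Filter ℕ) atTop) (hf : Lm U t f x) (hg : Lm U t g y) :
    Lm U t (fun n => min (f n) (g n)) (min x y) := by
  have h1 : Tendsto (fun n => Min.min (f n / t n) (g n / t n)) (U : Filter ℕ) (𝓝 (Min.min x y)) := Tendsto.min hf hg
  refine h1.congr' ?_
  filter_upwards [ht.eventually_gt_atTop 0] with n hn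
  exact (min_div_div_right hn.le _ _)

theorem Lm.le (ht : Tendsto t (U : Filter ℕ) atTop) (hf : Lm U t f x) (hg : Lm U t g y) (C : ℝ)
    (h : ∀ᶠ n in (U : Filter ℕ), f n - C ≤ g n) : x ≤ y := by
  have h1 : Tendsto (fun n => f n / t n - C / t n) (U : Filter ℕ) (𝓝 (x - 0)) := Tendsto.sub hf (Lm.const ht C)
  rw [sub_zero] at h1
  refine le_of_tendsto_of_tendsto h1 hg ?_
  filter_upwards [h, ht.eventually_gt_atTop 0] with n h1 h2
  rw [← sub_div]
  exact div_le_div_of_nonneg_right h1 h2.le

theorem Lm.close (ht : Tendsto t (U : Filter ℕ) atTop) (hf : Lm U t f x) (hg : Lm U t g y) (C : ℝ)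
    (h : ∀ᶠ n in (U : Filter ℕ), |f n - g n| ≤ C) : x = y := by
  refine le_antisymm (hf.le ht hg C ?_) (hg.le ht hf C ?_)
  · filter_upwards [h] with n hn
    have := (abs_le.1 hn).2
    linarith
  · filter_upwards [h] with n hn
    have := (abs_le.1 hn).1
    linarith

theorem Lm.exists_of (ht : Tendsto t (U : Filter ℕ) atTop) (hf : Lm U t f x) (C : ℝ) (h0 : ∀ n, -C ≤ g n)
    (h : ∀ n, g n ≤ f n + C) : ∃ y, Lm U t g y := by
  refine SU1.lim_bdd U (fun n => g n / t n) (|x| + 2) ?_
  have h1 := (Metric.tendsto_nhds.1 (show Tendsto (fun n => f n / t n) (U : Filter ℕ) (𝓝 x) from hf)) 1 one_pos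
  have h2 := (Metric.tendsto_nhds.1 (show Tendsto (fun n => C / t n) (U : Filter ℕ) (𝓝 0) from Lm.const ht C)) 1 one_pos
  filter_upwards [h1, h2, ht.eventually_gt_atTop 0] with n e1 e2 e3
  rw [Real.dist_eq] at e1 e2
  rw [sub_zero] at e2
  have e4 := div_le_div_of_nonneg_right (h0 n) e3.le
  have e5 := div_le_div_of_nonneg_right (h n) e3.le
  rw [add_div] at e5
  rw [neg_div] at e4
  have e6 := le_abs_self x
  have e7 := neg_abs_le x
  rw [abs_lt] at e1 e2
  rw [abs_le]
  constructor <;> linarith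

end lm

section plc

variable {q : ℕ} (U : Ultrafilter ℕ) (v : Pl k) (P : ℕ → Pt v)
  (hH : Tendsto (fun n => vH (P n).F) (U : Filter ℕ) atTop)

include hH

theorem lm_sz (g : Fin 6 → k) (hg : g ∉ van U fun n => (P n).F) :
    Lm U (fun n => vH (P n).F) (fun n => (P n).sz g) (szf U (fun n => (P n).F) v g) :=
  szf_tendsto U _ hH v g hg

theorem plc_of (l : Fin q → Fin 3 → k) (hl : GP l) (hq : 3 ≤ q)
    (hne : ∀ n i, vL (l i) (P n).X ≠ 0 ∧ vL (l i) (P n).Y ≠ 0) :
    ∃ a b : Fin q → ℝ, Plc (van U fun n => (P n).F).mkQ l (sz U (fun n => (P n).F) v) a b ∧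
      ∀ m : Fin 3 → k, (∀ᶠ n in (U : Filter ℕ), vL m (P n).X = 0 ∧ vL m (P n).Y = 0) → ∀ i j, i ≠ j →
        m ∉ Submodule.span k {l i, l j} → (a i = 0 ∨ a j = 0) ∧ (b i = 0 ∨ b j = 0) := by
  classical
  set F : ℕ → Fin 6 → k := fun n => (P n).F with hF
  set t : ℕ → ℝ := fun n => vH (F n) with ht
  have hsz := lm_sz U v P hH
  have hE : ∀ i, sy (l i) (l i) ∉ van U F := by
    intro i h
    obtain ⟨n, hn⟩ := Eventually.exists (show ∀ᶠ n in (U : Filter ℕ), vl (sy (l i) (l i)) (F n) = 0 from h)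
    have h1 := (P n).sy_F (l i) (l i)
    rw [show vl (sy (l i) (l i)) (P n).F = 0 from hn, map_zero, ← two_mul] at h1
    exact mul_ne_zero two_ne (mul_ne_zero (hne n i).1 (hne n i).2) h1.symm
  choose C1 hC1 hlow using fun i => al_lower v (l i)
  have hal : ∀ i n, -C1 i ≤ (P n).al (l i) := fun i n => hlow i (P n) (hne n i).1
  have hbe : ∀ i n, -C1 i ≤ (P n).be (l i) := fun i n => hlow i (P n).swap (hne n i).2
  have hsq : ∀ i n, |(P n).sz (sy (l i) (l i)) - ((P n).al (l i) + (P n).be (l i))| ≤ C0 v :=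
    fun i n => (P n).sq (l i) (hne n i).1 (hne n i).2
  have hC0 := C0_nonneg v
  have hexa : ∀ i, ∃ a, Lm U t (fun n => (P n).al (l i)) a := by
    intro i
    refine (hsz _ (hE i)).exists_of hH (C0 v + C1 i) (fun n => ?_) fun n => ?_
    · have := hal i n
      linarith
    · have h1 := (abs_le.1 (hsq i n)).1
      have h2 := hbe i n
      linarith
  have hexb : ∀ i, ∃ b, Lm U t (fun n => (P n).be (l i)) b := by
    intro i
    refine (hsz _ (hE i)).exists_of hH (C0 v + C1 i) (fun n => ?_) fun n => ?_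
    · have := hbe i n
      linarith
    · have h1 := (abs_le.1 (hsq i n)).1
      have h2 := hal i n
      linarith
  choose a ha using hexa
  choose b hb using hexb
  have ha0 : ∀ i, 0 ≤ a i := fun i => (Lm.const hH (-C1 i)).le hH (ha i) 0 (Eventually.of_forall fun n => by
    have := hal i n
    linarith)
  have hb0 : ∀ i, 0 ≤ b i := fun i => (Lm.const hH (-C1 i)).le hH (hb i) 0 (Eventually.of_forall fun n => by
    have := hbe i n
    linarith)
  have hmk : ∀ g, g ∉ van U F → sz U F v ((van U F).mkQ g) = szf U F v g := fun g hg => sz_mk U F hH v g hg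
  have hmem : ∀ g, (van U F).mkQ g ≠ 0 → g ∉ van U F := fun g hg => not_van_of_mk U F hg
  have hli : ∀ i j, i ≠ j → LinearIndependent k ![l i, l j] := by
    intro i j hij
    obtain ⟨k', hk1, hk2⟩ : ∃ k' : Fin q, k' ≠ i ∧ k' ≠ j := by
      by_contra hcon
      push Not at hcon
      have h1 : (univ : Finset (Fin q)) ⊆ {i, j} := by
        intro x _
        rw [mem_insert, mem_singleton]
        by_cases hx : x = i
        · exact Or.inl hx
        · exact Or.inr (hcon x hx)
      have h2 := (card_le_card h1).trans card_le_two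
      rw [card_univ, Fintype.card_fin] at h2
      omega
    rw [LinearIndependent.pair_iff]
    intro s s' h
    have h3 := hl i j k' hij hk1.symm hk2.symm
    have e : ∀ c, s * l i c + s' * l j c = 0 := fun c => congrFun h c
    have e0 := e 0
    have e1 := e 1
    have e2 := e 2
    constructor
    · by_contra hs
      apply h3
      have g : ∀ c, l i c = -(s' / s) * l j c := fun c => by
        field_simp
        linear_combination e c
      unfold d3
      rw [g 0, g 1, g 2]
      ring
    · by_contra hs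
      apply h3
      have g : ∀ c, l j c = -(s / s') * l i c := fun c => by
        field_simp
        linear_combination e c
      unfold d3
      rw [g 0, g 1, g 2]
      ring
  have hthree : ∀ (x : Fin q → ℝ), (∀ i, 0 ≤ x i) → (∀ i j k', i ≠ j → i ≠ k' → j ≠ k' → min (x i) (min (x j) (x k')) ≤ 0) →
      ∀ i j k', i ≠ j → i ≠ k' → j ≠ k' → x i = 0 ∨ x j = 0 ∨ x k' = 0 := by
    intro x hx h i j k' h1 h2 h3
    have h4 := h i j k' h1 h2 h3
    rcases min_le_iff.1 h4 with h5 | h5
    · exact Or.inl (le_antisymm h5 (hx i))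
    · rcases min_le_iff.1 h5 with h6 | h6
      · exact Or.inr (Or.inl (le_antisymm h6 (hx j)))
      · exact Or.inr (Or.inr (le_antisymm h6 (hx k')))
  refine ⟨a, b, ?_, ?_⟩
  · refine ⟨fun x hx => sz_nonneg U F hH v x hx, fun c x hc hx => sz_smul U F hH v c x hc hx,
      fun x y hx hy hxy => sz_add U F hH v x y hx hy hxy, ha0, hb0, ?_, ?_, ?_, ?_, ?_, ?_⟩
    · refine hthree a ha0 fun i j k' h1 h2 h3 => ?_
      obtain ⟨C, hC⟩ := al_three v (l i) (l j) (l k') (hl i j k' h1 h2 h3)
      refine ((ha i).min hH ((ha j).min hH (ha k'))).le hH (Lm.const hH C) 0 (Eventually.of_forall fun n => ?_)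
      rw [sub_zero]
      exact hC (P n) (hne n i).1 (hne n j).1 (hne n k').1
    · refine hthree b hb0 fun i j k' h1 h2 h3 => ?_
      obtain ⟨C, hC⟩ := al_three v (l i) (l j) (l k') (hl i j k' h1 h2 h3)
      refine ((hb i).min hH ((hb j).min hH (hb k'))).le hH (Lm.const hH C) 0 (Eventually.of_forall fun n => ?_)
      rw [sub_zero]
      exact hC (P n).swap (hne n i).2 (hne n j).2 (hne n k').2
    · intro i
      have h1 : E (van U F).mkQ l i = (van U F).mkQ (sy (l i) (l i)) := rfl
      rw [h1, hmk _ (hE i)]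
      exact (hsz _ (hE i)).close hH ((ha i).add (hb i)) (C0 v) (Eventually.of_forall (hsq i))
    · intro m i j i' j' hm hm' hne0
      have hg := hmem _ hne0
      rw [hmk _ hg]
      obtain ⟨C, hC⟩ := al_span v m (l i) (l j) hm
      obtain ⟨C', hC'⟩ := al_span v m (l i') (l j') hm'
      refine (((ha i).min hH (ha j)).add ((hb i').min hH (hb j'))).le hH (hsz _ hg) (C + C' + C0 v) ?_
      filter_upwards [not_van U F hg] with n hn
      have h1 := (P n).sy_F m m
      have h2 : vL m (P n).X ≠ 0 ∧ vL m (P n).Y ≠ 0 := by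
        constructor
        · intro h0
          rw [h0, zero_mul, add_zero] at h1
          exact hn ((map_eq_zero _).1 h1)
        · intro h0
          rw [h0, mul_zero, add_zero] at h1
          exact hn ((map_eq_zero _).1 h1)
      have h3 := hC (P n) (hne n i).1 (hne n j).1 h2.1
      have h4 := hC' (P n).swap (hne n i').2 (hne n j').2 h2.2
      have h5 := (abs_le.1 ((P n).sq m h2.1 h2.2)).1
      have h6 : (P n).swap.al m = (P n).be m := rfl
      have h7 : (P n).swap.al (l i') = (P n).be (l i') := rfl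
      have h8 : (P n).swap.al (l j') = (P n).be (l j') := rfl
      rw [h6, h7, h8] at h4
      linarith
    · intro i j hij hB
      have hg := hmem _ hB
      have h1 : B (van U F).mkQ l i j = (van U F).mkQ (sy (l i) (l j)) := rfl
      rw [h1, hmk _ hg]
      refine (((ha i).add (hb j)).min hH ((ha j).add (hb i))).le hH (hsz _ hg) (C0 v) ?_
      filter_upwards [not_van U F hg] with n hn
      exact (P n).mul (l i) (l j) (hne n i).1 (hne n i).2 (hne n j).1 (hne n j).2 hn
    · intro i j hij hlt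
      have hev : ∀ᶠ n in (U : Filter ℕ), (P n).al (l i) + (P n).be (l j) + C0 v < (P n).al (l j) + (P n).be (l i) := by
        have h1 := ((ha i).add (hb j)).add (Lm.const hH (C0 v))
        have h2 := (ha j).add (hb i)
        rw [add_zero] at h1
        have h3 := Filter.Tendsto.eventually_lt (show Tendsto _ _ _ from h1) (show Tendsto _ _ _ from h2) hlt
        filter_upwards [h3, hH.eventually_gt_atTop 0] with n h4 h5
        exact (div_lt_div_iff_of_pos_right h5).1 h4
      have hev' : ∀ᶠ n in (U : Filter ℕ), vl (sy (l i) (l j)) (F n) ≠ 0 ∧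
          |(P n).sz (sy (l i) (l j)) - ((P n).al (l i) + (P n).be (l j))| ≤ C0 v := by
        filter_upwards [hev] with n hn
        exact (P n).mul_eq (l i) (l j) (hne n i).1 (hne n i).2 (hne n j).1 (hne n j).2 hn
      have hg : sy (l i) (l j) ∉ van U F := by
        intro h
        obtain ⟨n, h1, h2⟩ := (hev'.and (show ∀ᶠ n in (U : Filter ℕ), vl (sy (l i) (l j)) (F n) = 0 from h)).exists
        exact h1.1 h2
      have h1 : B (van U F).mkQ l i j = (van U F).mkQ (sy (l i) (l j)) := rfl
      refine ⟨fun h => hg ((Submodule.Quotient.mk_eq_zero _).1 h), ?_⟩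
      rw [h1, hmk _ hg]
      exact (hsz _ hg).close hH ((ha i).add (hb j)) (C0 v) (hev'.mono fun n h => h.2)
  · intro m hm i j hij hmem'
    have hd := d3_ne_of (hli i j hij) hmem'
    obtain ⟨C, hC⟩ := al_two v m (l i) (l j) hd
    constructor
    · have h1 : min (a i) (a j) ≤ 0 := by
        refine ((ha i).min hH (ha j)).le hH (Lm.const hH C) 0 ?_
        filter_upwards [hm] with n hn
        rw [sub_zero]
        exact hC (P n) hn.1 (hne n i).1 (hne n j).1
      rcases min_le_iff.1 h1 with h2 | h2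
      · exact Or.inl (le_antisymm h2 (ha0 i))
      · exact Or.inr (le_antisymm h2 (ha0 j))
    · have h1 : min (b i) (b j) ≤ 0 := by
        refine ((hb i).min hH (hb j)).le hH (Lm.const hH C) 0 ?_
        filter_upwards [hm] with n hn
        rw [sub_zero]
        exact hC (P n).swap hn.2 (hne n i).2 (hne n j).2
      rcases min_le_iff.1 h1 with h2 | h2
      · exact Or.inl (le_antisymm h2 (hb0 i))
      · exact Or.inr (le_antisymm h2 (hb0 j))

end plc

end Pool.Agent.QP
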