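import Pool.Agent.Helper64.QP.Ht
import Pool.Agent.Helper16.QP.GDefs

/-!
# QP, block LOC: local estimates for one point and one place
-/

set_option autoImplicit false
set_option linter.unusedSectionVars false

namespace Pool.Agent.QP

open NumberField Finset Module
open Pool.Agent.Helper64.Vojta (Pl nv sn above mem_above nv_nonneg nv_mul nv_one nv_zero nv_pos nv_inv le_sn sn_le sn_pos
  nv_sum_le)
open Pool.Agent.Helper52.Vojta (ldeg nv_above sum_ldeg sn_above)
open Pool.Agent.V2 (vn)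

universe u

variable {k : Type u} [Field k] [NumberField k]

/-- the value of a linear form over `k` -/
def vL {L : Type u} [Field L] [Algebra k L] {s : ℕ} (m : Fin s → k) (X : Fin s → L) : L :=
  ∑ a, algebraMap k L (m a) * X a

/-- a point with a place -/
structure Pt (v : Pl k) : Type (u + 1) where
  L : Type u
  [fL : Field L]
  [nL : NumberField L]
  [aL : Algebra k L]
  w : Pl L
  hw : w ∈ above L v
  hr : ldeg v w ≤ 2
  X : Fin 3 → L
  Y : Fin 3 → L
  hX : X ≠ 0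
  hY : Y ≠ 0
  F : Fin 6 → k
  hF : ∀ a, algebraMap k L (F a) = ten X Y a

attribute [instance] Pt.fL Pt.nL Pt.aL

namespace Pt

variable {v : Pl k} (P : Pt v)

/-- closeness of the first point -/
noncomputable def al (m : Fin 3 → k) : ℝ := (Real.log (sn P.w P.X) - Real.log (nv P.w (vL m P.X))) / ldeg v P.w

/-- closeness of the second point -/
noncomputable def be (m : Fin 3 → k) : ℝ := (Real.log (sn P.w P.Y) - Real.log (nv P.w (vL m P.Y))) / ldeg v P.w

/-- the size -/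
noncomputable def sz (g : Fin 6 → k) : ℝ := Real.log (vn v P.F) - Real.log (nv v (vl g P.F))

theorem r_pos : (0 : ℝ) < ldeg v P.w := by
  exact_mod_cast Nat.pos_of_ne_zero (ldeg_ne_zero P.hw)

theorem r_le : (ldeg v P.w : ℝ) ≤ 2 := by
  exact_mod_cast P.hr

theorem one_le_r : (1 : ℝ) ≤ ldeg v P.w := by
  exact_mod_cast Nat.one_le_iff_ne_zero.2 (ldeg_ne_zero P.hw)

theorem log_base (c : k) : Real.log (nv P.w (algebraMap k P.L c)) = ldeg v P.w * Real.log (nv v c) := by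
  rw [nv_above P.hw, Real.log_pow]

theorem sn_F : Real.log (sn P.w (ten P.X P.Y)) = ldeg v P.w * Real.log (vn v P.F) := by
  have h1 : (ten P.X P.Y) = fun a => algebraMap k P.L (P.F a) := funext fun a => (P.hF a).symm
  rw [h1, sn_above (by norm_num) P.hw, Real.log_pow]
  rfl

theorem pr_F (g : Fin 6 → k) : pr (fun a => algebraMap k P.L (g a)) (ten P.X P.Y) = algebraMap k P.L (vl g P.F) := by
  unfold pr vl
  rw [map_sum]
  refine sum_congr rfl fun a _ => ?_
  rw [map_mul, P.hF]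

theorem sy_F (m m' : Fin 3 → k) :
    algebraMap k P.L (vl (sy m m') P.F) = vL m P.X * vL m' P.Y + vL m' P.X * vL m P.Y := by
  rw [← pr_F]
  have h1 : (fun a => algebraMap k P.L (sy m m' a)) = sy (fun a => algebraMap k P.L (m a)) fun a => algebraMap k P.L (m' a) := by
    funext a
    fin_cases a <;> simp [sy]
  rw [h1, pr_sy_ten]
  rfl

/-- the size through the place `w` -/
theorem sz_eq (m m' : Fin 3 → k) : P.sz (sy m m') =
    (Real.log (sn P.w (ten P.X P.Y)) - Real.log (nv P.w (vL m P.X * vL m' P.Y + vL m' P.X * vL m P.Y))) / ldeg v P.w := by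
  rw [← sy_F, log_base, sn_F, ← mul_sub, mul_div_cancel_left₀ _ P.r_pos.ne']
  rfl

/-- the two-point symmetry -/
def swap : Pt v :=
  { L := P.L, w := P.w, hw := P.hw, hr := P.hr, X := P.Y, Y := P.X, hX := P.hY, hY := P.hX, F := P.F,
    hF := fun a => by
      rw [P.hF]
      fin_cases a <;> simp [ten] <;> ring }

theorem al_swap (m : Fin 3 → k) : P.swap.al m = P.be m := rfl

end Pt

/-- a bound for the coefficients -/
noncomputable def MM (v : Pl k) {s : ℕ} (c : Fin s → k) : ℝ := (1 + ∑ a, nv v (c a)) ^ 2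

theorem MM_ge (v : Pl k) {s : ℕ} (c : Fin s → k) : 1 ≤ MM v c := by
  have h : 0 ≤ ∑ a, nv v (c a) := sum_nonneg fun _ _ => nv_nonneg _ _
  unfold MM
  nlinarith

theorem nv_le_MM {v : Pl k} (P : Pt v) {s : ℕ} (c : Fin s → k) (a : Fin s) :
    nv P.w (algebraMap k P.L (c a)) ≤ MM v c := by
  rw [nv_above P.hw]
  have h0 : nv v (c a) ≤ ∑ a, nv v (c a) := single_le_sum (f := fun a => nv v (c a)) (fun _ _ => nv_nonneg _ _) (mem_univ a)
  have h1 : nv v (c a) ≤ 1 + ∑ a, nv v (c a) := by linarith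
  have h2 : (1 : ℝ) ≤ 1 + ∑ a, nv v (c a) := by
    have : 0 ≤ ∑ a, nv v (c a) := sum_nonneg fun _ _ => nv_nonneg _ _
    linarith
  calc nv v (c a) ^ ldeg v P.w ≤ (1 + ∑ a, nv v (c a)) ^ ldeg v P.w := pow_le_pow_left₀ (nv_nonneg _ _) h1 _
    _ ≤ MM v c := pow_le_pow_right₀ h2 P.hr

theorem nv_vL_le {v : Pl k} (P : Pt v) {s : ℕ} (c : Fin s → k) (z : Fin s → P.L) (B : ℝ) (hB : ∀ r, nv P.w (z r) ≤ B)
    (hB0 : 0 ≤ B) : nv P.w (vL c z) ≤ (s + 1 : ℝ) ^ 2 * (MM v c * B) := by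
  have hM : 0 ≤ MM v c := zero_le_one.trans (MM_ge v c)
  have h1 := nv_sum_le P.w univ (fun a => algebraMap k P.L (c a) * z a) (MM v c * B) (mul_nonneg hM hB0) fun a _ => by
    rw [nv_mul]
    exact mul_le_mul (nv_le_MM P c a) (hB a) (nv_nonneg _ _) hM
  rwa [card_univ, Fintype.card_fin] at h1

/-- comparison of a form with a family of forms, of which it is a combination -/
theorem al_ge (v : Pl k) {s : ℕ} (m : Fin 3 → k) (M : Fin s → Fin 3 → k) (c : Fin s → k) (hm : m = ∑ r, c r • M r) :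
    ∃ C : ℝ, 0 ≤ C ∧ ∀ (P : Pt v) (B : ℝ), 0 < B → (∀ r, nv P.w (vL (M r) P.X) ≤ B) → vL m P.X ≠ 0 →
      (Real.log (sn P.w P.X) - Real.log B) / ldeg v P.w - C ≤ P.al m := by
  have hM := MM_ge v c
  have hs : (1 : ℝ) ≤ (s + 1 : ℝ) ^ 2 := by
    have : (0 : ℝ) ≤ s := Nat.cast_nonneg _
    nlinarith
  have hC1 : (1 : ℝ) ≤ (s + 1 : ℝ) ^ 2 * MM v c := one_le_mul_of_one_le_of_one_le hs hM
  refine ⟨Real.log ((s + 1 : ℝ) ^ 2 * MM v c), Real.log_nonneg hC1, fun P B hB hr hne => ?_⟩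
  have e1 : vL m P.X = vL c fun r => vL (M r) P.X := by
    unfold vL
    simp only [hm, Finset.sum_apply, Pi.smul_apply, smul_eq_mul, map_sum, map_mul, sum_mul, mul_sum]
    rw [sum_comm]
    refine sum_congr rfl fun r _ => sum_congr rfl fun a _ => ?_
    ring
  have h1 := nv_vL_le P c (fun r => vL (M r) P.X) B hr hB.le
  rw [← e1, ← mul_assoc] at h1
  have h2 := Real.log_le_log (nv_pos P.w hne) h1
  rw [Real.log_mul (by linarith) hB.ne'] at h2
  unfold Pt.al
  have h3 := P.one_le_r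
  have h4 : 0 ≤ Real.log ((s + 1 : ℝ) ^ 2 * MM v c) := Real.log_nonneg hC1
  rw [sub_le_iff_le_add, div_le_iff₀ P.r_pos, add_mul, div_mul_cancel₀ _ P.r_pos.ne']
  nlinarith

theorem al_lower (v : Pl k) (m : Fin 3 → k) : ∃ C : ℝ, 0 ≤ C ∧ ∀ P : Pt v, vL m P.X ≠ 0 → -C ≤ P.al m := by
  classical
  obtain ⟨C, hC, h⟩ := al_ge v m (fun r : Fin 3 => Pi.single r 1) m (by
    funext a
    rw [Finset.sum_apply]
    simp [Pi.single_apply])
  refine ⟨C, hC, fun P hne => ?_⟩
  have h1 := h P (sn P.w P.X) (sn_pos P.w P.hX) (fun r => by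
    have : vL (Pi.single r 1 : Fin 3 → k) P.X = P.X r := by
      unfold vL
      simp [Pi.single_apply]
    rw [this]
    exact le_sn P.w P.X r) hne
  rw [sub_self, zero_div, zero_sub] at h1
  exact h1

/-- The point is not close to three independent lines. -/
theorem al_le (v : Pl k) {s : ℕ} (M : Fin s → Fin 3 → k) (c : Fin 3 → Fin s → k)
    (hc : ∀ a b, (∑ r, c a r * M r b) = if a = b then 1 else 0) :
    ∃ C : ℝ, 0 ≤ C ∧ ∀ (P : Pt v) (B : ℝ), 0 < B → (∀ r, nv P.w (vL (M r) P.X) ≤ B) →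
      (Real.log (sn P.w P.X) - Real.log B) / ldeg v P.w ≤ C := by
  set C0 : ℝ := ∑ a, (s + 1 : ℝ) ^ 2 * MM v (c a) with hC0
  have hs : (1 : ℝ) ≤ (s + 1 : ℝ) ^ 2 := by
    have : (0 : ℝ) ≤ s := Nat.cast_nonneg _
    nlinarith
  have hpos : ∀ a, 1 ≤ (s + 1 : ℝ) ^ 2 * MM v (c a) := fun a => one_le_mul_of_one_le_of_one_le hs (MM_ge v (c a))
  have hle : ∀ a, (s + 1 : ℝ) ^ 2 * MM v (c a) ≤ C0 := fun a =>
    single_le_sum (f := fun a => (s + 1 : ℝ) ^ 2 * MM v (c a)) (fun a _ => zero_le_one.trans (hpos a)) (mem_univ a)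
  have hC1 : 1 ≤ C0 := (hpos 0).trans (hle 0)
  refine ⟨Real.log C0, Real.log_nonneg hC1, fun P B hB hr => ?_⟩
  have h1 : sn P.w P.X ≤ C0 * B := by
    refine sn_le P.w P.X _ (mul_nonneg (zero_le_one.trans hC1) hB.le) fun a => ?_
    have e1 : P.X a = vL (c a) fun r => vL (M r) P.X := by
      unfold vL
      simp only [mul_sum]
      rw [sum_comm]
      have : ∀ b, ∑ r, algebraMap k P.L (c a r) * (algebraMap k P.L (M r b) * P.X b) =
          algebraMap k P.L (∑ r, c a r * M r b) * P.X b := by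
        intro b
        rw [map_sum, sum_mul]
        exact sum_congr rfl fun r _ => by rw [map_mul, mul_assoc]
      simp only [this, hc]
      simp
    rw [e1]
    refine (nv_vL_le P (c a) _ B hr hB.le).trans ?_
    rw [← mul_assoc]
    exact mul_le_mul_of_nonneg_right (hle a) hB.le
  have h2 := Real.log_le_log (sn_pos P.w P.hX) h1
  rw [Real.log_mul (by linarith) hB.ne'] at h2
  rw [div_le_iff₀ P.r_pos]
  have h3 := P.one_le_r
  have h4 := Real.log_nonneg hC1
  nlinarith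

theorem log_KK_le {L : Type u} [Field L] [NumberField L] (w : Pl L) : Real.log (KK w) ≤ Real.log 9 := by
  rcases w with w | w
  · exact le_rfl
  · show Real.log 1 ≤ Real.log 9
    rw [Real.log_one]
    exact Real.log_nonneg (by norm_num)

/-- the constant of the products -/
noncomputable def C0 (v : Pl k) : ℝ := 3 * Real.log 9 + |Real.log (nv v (2 : k))|

theorem C0_nonneg (v : Pl k) : 0 ≤ C0 v := by
  have : 0 ≤ Real.log 9 := Real.log_nonneg (by norm_num)
  unfold C0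
  positivity

namespace Pt

variable {v : Pl k} (P : Pt v)

theorem al_mul (m : Fin 3 → k) : ldeg v P.w * P.al m = Real.log (sn P.w P.X) - Real.log (nv P.w (vL m P.X)) := by
  unfold al
  rw [mul_div_cancel₀ _ P.r_pos.ne']

theorem be_mul (m : Fin 3 → k) : ldeg v P.w * P.be m = Real.log (sn P.w P.Y) - Real.log (nv P.w (vL m P.Y)) := by
  unfold be
  rw [mul_div_cancel₀ _ P.r_pos.ne']

theorem sz_mul (m m' : Fin 3 → k) : ldeg v P.w * P.sz (sy m m') =
    Real.log (sn P.w (ten P.X P.Y)) - Real.log (nv P.w (vL m P.X * vL m' P.Y + vL m' P.X * vL m P.Y)) := by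
  rw [sz_eq, mul_div_cancel₀ _ P.r_pos.ne']

theorem log_two : Real.log (nv P.w (2 : P.L)) = ldeg v P.w * Real.log (nv v (2 : k)) := by
  rw [← P.log_base 2, map_ofNat]

theorem le_of_mul {a b : ℝ} (h : ldeg v P.w * a ≤ ldeg v P.w * b) : a ≤ b := le_of_mul_le_mul_left h P.r_pos

/-- the bounds for the tensor -/
theorem ten_bounds : Real.log (sn P.w (ten P.X P.Y)) ≤ Real.log (sn P.w P.X) + Real.log (sn P.w P.Y) + Real.log 9 ∧
    Real.log (sn P.w P.X) + Real.log (sn P.w P.Y) + ldeg v P.w * Real.log (nv v (2 : k)) ≤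
      Real.log (sn P.w (ten P.X P.Y)) + 2 * Real.log 9 := by
  have h1 := log_ten_le P.w P.hX P.hY
  have h2 := le_log_ten P.w P.hX P.hY
  have h3 := log_KK_le P.w
  rw [P.log_two] at h2
  constructor <;> linarith

theorem sq (m : Fin 3 → k) (hX : vL m P.X ≠ 0) (hY : vL m P.Y ≠ 0) :
    |P.sz (sy m m) - (P.al m + P.be m)| ≤ C0 v := by
  obtain ⟨h1, h2⟩ := P.ten_bounds
  have h3 := P.sz_mul m m
  have h4 : Real.log (nv P.w (vL m P.X * vL m P.Y + vL m P.X * vL m P.Y)) =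
      ldeg v P.w * Real.log (nv v (2 : k)) + Real.log (nv P.w (vL m P.X)) + Real.log (nv P.w (vL m P.Y)) := by
    rw [← two_mul, nv_mul, nv_mul, Real.log_mul (nv_pos P.w two_ne).ne' (mul_pos (nv_pos P.w hX) (nv_pos P.w hY)).ne',
      Real.log_mul (nv_pos P.w hX).ne' (nv_pos P.w hY).ne', P.log_two]
    ring
  rw [h4] at h3
  have h5 := P.al_mul m
  have h6 := P.be_mul m
  have h7 := P.one_le_r
  have h8 : 0 ≤ Real.log 9 := Real.log_nonneg (by norm_num)
  have h9 := neg_abs_le (Real.log (nv v (2 : k)))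
  have h10 := P.r_pos
  unfold C0
  rw [abs_le]
  constructor
  · refine P.le_of_mul ?_
    nlinarith [abs_nonneg (Real.log (nv v (2 : k)))]
  · refine P.le_of_mul ?_
    nlinarith [abs_nonneg (Real.log (nv v (2 : k)))]

theorem mul (m m' : Fin 3 → k) (hX : vL m P.X ≠ 0) (hY : vL m P.Y ≠ 0) (hX' : vL m' P.X ≠ 0) (hY' : vL m' P.Y ≠ 0)
    (h : vl (sy m m') P.F ≠ 0) : min (P.al m + P.be m') (P.al m' + P.be m) - C0 v ≤ P.sz (sy m m') := by
  obtain ⟨h1, h2⟩ := P.ten_bounds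
  have h3 := P.sz_mul m m'
  have hne : vL m P.X * vL m' P.Y + vL m' P.X * vL m P.Y ≠ 0 := by
    rw [← P.sy_F]
    exact (map_ne_zero _).2 h
  have h4 := Real.log_le_log (nv_pos P.w hne) (nv_add_le P.w (vL m P.X * vL m' P.Y) (vL m' P.X * vL m P.Y))
  have ha : 0 < nv P.w (vL m P.X * vL m' P.Y) := nv_pos P.w (mul_ne_zero hX hY')
  have hb : 0 < nv P.w (vL m' P.X * vL m P.Y) := nv_pos P.w (mul_ne_zero hX' hY)
  rw [Real.log_mul (KK_pos _).ne' (lt_max_of_lt_left ha).ne'] at h4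
  have h5 := P.al_mul m
  have h6 := P.be_mul m
  have h5' := P.al_mul m'
  have h6' := P.be_mul m'
  have h7 := P.one_le_r
  have h8 : 0 ≤ Real.log 9 := Real.log_nonneg (by norm_num)
  have h9 := neg_abs_le (Real.log (nv v (2 : k)))
  have h10 := log_KK_le P.w
  have e1 : Real.log (nv P.w (vL m P.X * vL m' P.Y)) = Real.log (nv P.w (vL m P.X)) + Real.log (nv P.w (vL m' P.Y)) := by
    rw [nv_mul, Real.log_mul (nv_pos P.w hX).ne' (nv_pos P.w hY').ne']
  have e2 : Real.log (nv P.w (vL m' P.X * vL m P.Y)) = Real.log (nv P.w (vL m' P.X)) + Real.log (nv P.w (vL m P.Y)) := by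
    rw [nv_mul, Real.log_mul (nv_pos P.w hX').ne' (nv_pos P.w hY).ne']
  rcases le_total (nv P.w (vL m P.X * vL m' P.Y)) (nv P.w (vL m' P.X * vL m P.Y)) with hle | hle
  · rw [max_eq_right hle] at h4
    refine le_trans (sub_le_sub_right (min_le_right _ _) _) (P.le_of_mul ?_)
    unfold C0
    nlinarith [abs_nonneg (Real.log (nv v (2 : k)))]
  · rw [max_eq_left hle] at h4
    refine le_trans (sub_le_sub_right (min_le_left _ _) _) (P.le_of_mul ?_)
    unfold C0
    nlinarith [abs_nonneg (Real.log (nv v (2 : k)))]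

theorem mul_eq (m m' : Fin 3 → k) (hX : vL m P.X ≠ 0) (hY : vL m P.Y ≠ 0) (hX' : vL m' P.X ≠ 0) (hY' : vL m' P.Y ≠ 0)
    (h : P.al m + P.be m' + C0 v < P.al m' + P.be m) :
    vl (sy m m') P.F ≠ 0 ∧ |P.sz (sy m m') - (P.al m + P.be m')| ≤ C0 v := by
  obtain ⟨h1, h2⟩ := P.ten_bounds
  have h3 := P.sz_mul m m'
  have ha : 0 < nv P.w (vL m P.X * vL m' P.Y) := nv_pos P.w (mul_ne_zero hX hY')
  have hb : 0 < nv P.w (vL m' P.X * vL m P.Y) := nv_pos P.w (mul_ne_zero hX' hY)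
  have h5 := P.al_mul m
  have h6 := P.be_mul m
  have h5' := P.al_mul m'
  have h6' := P.be_mul m'
  have h7 := P.one_le_r
  have h8 : 0 ≤ Real.log 9 := Real.log_nonneg (by norm_num)
  have h9 := neg_abs_le (Real.log (nv v (2 : k)))
  have h10 := log_KK_le P.w
  have h11 := log_KK_nonneg P.w
  have e1 : Real.log (nv P.w (vL m P.X * vL m' P.Y)) = Real.log (nv P.w (vL m P.X)) + Real.log (nv P.w (vL m' P.Y)) := by
    rw [nv_mul, Real.log_mul (nv_pos P.w hX).ne' (nv_pos P.w hY').ne']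
  have e2 : Real.log (nv P.w (vL m' P.X * vL m P.Y)) = Real.log (nv P.w (vL m' P.X)) + Real.log (nv P.w (vL m P.Y)) := by
    rw [nv_mul, Real.log_mul (nv_pos P.w hX').ne' (nv_pos P.w hY).ne']
  have hlt : Real.log (KK P.w) + Real.log (nv P.w (vL m' P.X * vL m P.Y)) < Real.log (nv P.w (vL m P.X * vL m' P.Y)) := by
    have h12 : ldeg v P.w * (P.al m + P.be m' + C0 v) < ldeg v P.w * (P.al m' + P.be m) :=
      mul_lt_mul_of_pos_left h P.r_pos
    unfold C0 at h12
    nlinarith [abs_nonneg (Real.log (nv v (2 : k))), P.r_pos]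
  have hlt' : KK P.w * nv P.w (vL m' P.X * vL m P.Y) < nv P.w (vL m P.X * vL m' P.Y) := by
    rw [← Real.log_mul (KK_pos _).ne' hb.ne'] at hlt
    exact (Real.log_lt_log_iff (mul_pos (KK_pos _) hb) ha).1 hlt
  have hle1 : nv P.w (vL m P.X * vL m' P.Y) ≤ KK P.w * nv P.w (vL m P.X * vL m' P.Y + vL m' P.X * vL m P.Y) := by
    have h12 := nv_add_le P.w (vL m P.X * vL m' P.Y + vL m' P.X * vL m P.Y) (-(vL m' P.X * vL m P.Y))
    rw [add_neg_cancel_right, nv_neg] at h12
    rcases le_total (nv P.w (vL m P.X * vL m' P.Y + vL m' P.X * vL m P.Y)) (nv P.w (vL m' P.X * vL m P.Y)) with h13 | h13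
    · rw [max_eq_right h13] at h12
      linarith
    · rwa [max_eq_left h13] at h12
  have hne : vL m P.X * vL m' P.Y + vL m' P.X * vL m P.Y ≠ 0 := by
    intro h0
    rw [h0, nv_zero, mul_zero] at hle1
    linarith
  have hpos := nv_pos P.w hne
  refine ⟨fun h0 => hne (by rw [← P.sy_F, h0, map_zero]), ?_⟩
  have g1 := Real.log_le_log ha hle1
  rw [Real.log_mul (KK_pos _).ne' hpos.ne'] at g1
  have g2 := Real.log_le_log hpos (nv_add_le P.w (vL m P.X * vL m' P.Y) (vL m' P.X * vL m P.Y))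
  have hmax : max (nv P.w (vL m P.X * vL m' P.Y)) (nv P.w (vL m' P.X * vL m P.Y)) = nv P.w (vL m P.X * vL m' P.Y) := by
    refine max_eq_left ?_
    have := KK_ge P.w
    nlinarith
  rw [hmax, Real.log_mul (KK_pos _).ne' ha.ne'] at g2
  unfold C0
  rw [abs_le]
  constructor
  · refine P.le_of_mul ?_
    nlinarith [abs_nonneg (Real.log (nv v (2 : k)))]
  · refine P.le_of_mul ?_
    nlinarith [abs_nonneg (Real.log (nv v (2 : k)))]

end Pt

end Pool.Agent.QP
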